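import Pool.Agent.H83.F2.Ph1
import Pool.Agent.H2.INV.BsgFam
import Pool.Agent.H9.F2.L2
import Pool.Agent.H69.PFR.Star2

set_option autoImplicit false

/-!
Step I with the entropic Balog-Szemeredi-Gowers inequality and PFR plugged in.
-/

namespace F2

open H2INV Finset

noncomputable section

/-- PFR against a spread family, constant `C` -/
def Star (C : ℝ) : Prop :=
  ∀ (E : Type) [AddCommGroup E] [Two E] [Finite E] (B Y : Fam E) (V : AddSubgroup E) (s e : ℝ),
    In B V → In Y V → 0 ≤ s → s ≤ 1 → 0 ≤ e →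
    (∀ W : AddSubgroup E, W ≤ V → ls V - hh B W ≤ s * (ls V - ls W) + e) →
    ls V - H (add B Y) ≤ s * (ls V - H Y) + C * (SD Y - H Y) + e

/-- STEP I, from PFR -/
theorem stepI_of {C : ℝ} (hC : C ≤ 40) (hP : Star C) :
    ∃ c : ℝ, 0 < c ∧ ∀ (E : Type) [AddCommGroup E] [Two E] [Finite E], Rb E c (1 / 16) := by
  refine stepI' ?_ ?_
  · intro E _ _ _ B Y V s e hB hY h0 h1 h2 h3
    have h4 := hP E B Y V s e hB hY h0 h1 h2 h3
    have h5 := SD_ge Y
    nlinarith
  · intro E _ _ _ U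
    exact SD_fold_le U

/-- STEP I -/
theorem stepI : ∃ c : ℝ, 0 < c ∧ ∀ (E : Type) [AddCommGroup E] [Two E] [Finite E],
    Rb E c (1 / 16) :=
  stepI_of (C := 5) (by norm_num) fun E _ _ _ B Y V _ _ _ hY h0 h1 _ h3 =>
    PFREnd.star B Y V h0 h1 hY h3

end

end F2
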