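import Pool.Agent.H9.F2.L1

set_option autoImplicit false

/-!
Step I: self-sums of spread families lose most of their deficiency.
-/

namespace F2

open H2INV Finset

noncomputable section

variable {E : Type} [AddCommGroup E]

/-! ### finer families -/

/-- `A` is a refinement of `F`: same variable, finer label -/
def Ref (A F : Fam E) : Prop :=
  ∃ φ : A.Om → F.Om, MP A.m φ F.m ∧ (∀ w, F.X (φ w) = A.X w) ∧
    ∀ w w', A.J w = A.J w' → F.J (φ w) = F.J (φ w')

lemma cent_comp_mp {α β : Type*} {O O' : Type} [Fintype O] [Fintype O'] {m : O → ℝ} {m' : O' → ℝ}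
    {φ : O' → O} (h : MP m' φ m) (f : O → α) (g : O → β) :
    cent m' (fun w => f (φ w)) (fun w => g (φ w)) = cent m f g := by
  unfold cent
  have h1 := ent_comp_of_mp h (pr f g)
  have h2 := ent_comp_of_mp h g
  rw [← h1, ← h2]
  rfl

lemma Ref.H_add {A F A' F' : Fam E} (h : Ref A F) (h' : Ref A' F') :
    H (add A A') ≤ H (add F F') := by
  obtain ⟨φ, h1, h2, h3⟩ := h
  obtain ⟨ψ, k1, k2, k3⟩ := h'
  have hmp : MP (prodPM A.m A'.m) (fun w => (φ w.1, ψ w.2)) (prodPM F.m F'.m) :=
    mp_prodMap h1 k1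
  have e1 := cent_comp_mp hmp (add F F').X (add F F').J
  have e2 : cent (prodPM A.m A'.m) (fun w => (add F F').X (φ w.1, ψ w.2))
      (fun w => (add F F').J (φ w.1, ψ w.2))
      = cent (prodPM A.m A'.m) (add A A').X (fun w => (add F F').J (φ w.1, ψ w.2)) := by
    congr 1
    funext w
    simp only [add, h2, k2]
  have e3 : cent (prodPM A.m A'.m) (add A A').X (add A A').J
      ≤ cent (prodPM A.m A'.m) (add A A').X (fun w => (add F F').J (φ w.1, ψ w.2)) :=
    cent_anti (add A A').hm _ fun w w' hw => by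
      simp only [add, Prod.mk.injEq] at hw ⊢
      exact ⟨h3 _ _ hw.1, k3 _ _ hw.2⟩
  have e4 : H (add A A') = cent (prodPM A.m A'.m) (add A A').X (add A A').J := rfl
  have e5 : H (add F F') = cent (prodPM F.m F'.m) (add F F').X (add F F').J := rfl
  rw [e4, e5, ← e1, e2]
  exact e3

/-- exchange of the two middle copies -/
lemma mp_four {O : Type} [Fintype O] (m : O → ℝ) :
    MP (prodPM (prodPM m m) (prodPM m m))
      (fun w : (O × O) × (O × O) => ((w.1.1, w.2.1), (w.1.2, w.2.2)))
      (prodPM (prodPM m m) (prodPM m m)) :=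
  mp_of_equiv (Equiv.prodProdProdComm O O O O) fun w => by
    simp only [prodPM, Equiv.prodProdProdComm_apply]
    ring

/-- fibring inequality -/
lemma H_add_fold (U : Fam E) : H (add (fold U U) (fold U U)) ≤
    2 * H (add U U) - H (add (add U U) (add U U)) := by
  let μ := prodPM (prodPM U.m U.m) (prodPM U.m U.m)
  let a : (U.Om × U.Om) × (U.Om × U.Om) → E := fun w => U.X w.1.1 + U.X w.2.1
  let b : (U.Om × U.Om) × (U.Om × U.Om) → E := fun w => U.X w.1.2 + U.X w.2.2
  let S : (U.Om × U.Om) × (U.Om × U.Om) → E :=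
    fun w => U.X w.1.1 + U.X w.1.2 + (U.X w.2.1 + U.X w.2.2)
  let J : (U.Om × U.Om) × (U.Om × U.Om) → (U.St × U.St) × (U.St × U.St) :=
    fun w => ((U.J w.1.1, U.J w.1.2), (U.J w.2.1, U.J w.2.2))
  have hμ : IsPM μ := isPM_prod (isPM_prod U.hm U.hm) (isPM_prod U.hm U.hm)
  have e1 : H (add (fold U U) (fold U U)) ≤ cent μ a (pr S J) := by
    refine cent_anti hμ _ fun w w' hw => ?_
    simp only [add, fold, Prod.mk.injEq] at hw
    obtain ⟨⟨h1, h2, h3⟩, h4, h5, h6⟩ := hw
    rw [pr_eq]
    refine ⟨?_, ?_⟩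
    · show U.X w.1.1 + U.X w.1.2 + (U.X w.2.1 + U.X w.2.2) = _
      rw [h1, h4]
    · simp only [J, h2, h3, h5, h6]
  have e2 := cent_chain μ a S J
  have e3 : cent μ S J = H (add (add U U) (add U U)) := rfl
  have e4 : cent μ (pr a S) J = 2 * H (add U U) := by
    have k1 := cent_prod_pair (add U U).hm (add U U).hm (add U U).X (add U U).X
      (add U U).J (add U U).J
    have k2 := cent_comp_mp (mp_four U.m)
      (fun w : (U.Om × U.Om) × (U.Om × U.Om) => ((add U U).X w.1, (add U U).X w.2))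
      (fun w => ((add U U).J w.1, (add U U).J w.2))
    have k3 : cent μ (pr a S) J = cent μ
        (fun w => ((add U U).X (w.1.1, w.2.1), (add U U).X (w.1.2, w.2.2)))
        (fun w => ((add U U).J (w.1.1, w.2.1), (add U U).J (w.1.2, w.2.2))) := by
      refine cent_congr μ (fun w w' => ?_) (fun w w' _ => ?_)
      · simp only [J, add, Prod.mk.injEq]
        tauto
      · simp only [pr_eq, add, a, S, Prod.mk.injEq]
        constructor
        · rintro ⟨h1, h2⟩
          refine ⟨h1, ?_⟩
          have h3 : ∀ p q r s : E, p + q + (r + s) = (p + r) + (q + s) := fun p q r s => by abel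
          rw [h3, h3 (U.X w'.1.1), h1] at h2
          exact add_left_cancel h2
        · rintro ⟨h1, h2⟩
          refine ⟨h1, ?_⟩
          have h3 : ∀ p q r s : E, p + q + (r + s) = (p + r) + (q + s) := fun p q r s => by abel
          rw [h3, h3 (U.X w'.1.1), h1, h2]
    rw [k3]
    have k4 : H (add U U) + H (add U U) = 2 * H (add U U) := by ring
    rw [← k4]
    exact k2.trans k1
  linarith

/-- two copies of the four-fold learning dominate the learning of the sum -/
lemma ref_AA (U : Fam E) :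
    Ref (add (fold U U) (fold U U)) (fold (add U U) (add U U)) := by
  refine ⟨fun w => ((w.1.1, w.2.1), (w.1.2, w.2.2)), mp_four U.m, fun w => rfl, ?_⟩
  intro w w' hw
  simp only [add, fold, Prod.mk.injEq] at hw ⊢
  obtain ⟨⟨h1, h2, h3⟩, h4, h5, h6⟩ := hw
  refine ⟨?_, ⟨h2, h5⟩, ⟨h3, h6⟩⟩
  have h7 : ∀ p q r s : E, p + r + (q + s) = (p + q) + (r + s) := fun p q r s => by abel
  rw [h7, h7 (U.X w'.1.1), h1, h4]

/-- the doubled four-fold law -/
lemma H_AA_le (U : Fam E) :
    H (add (add (fold U U) (fold U U)) (add (fold U U) (fold U U)))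
      ≤ H (add (add U U) (add U U)) := by
  have h1 := (ref_AA U).H_add (ref_AA U)
  have h2 := H_add_fold (add U U)
  have h3 := H_add_left (add (add U U) (add U U)) (add (add U U) (add U U))
  linarith

/-- closure identity -/
lemma hh_fold_self (U : Fam E) (W : AddSubgroup E) :
    hh (fold U U) W = 2 * hh U W - ls W + H (add (rs U W) (rs U W)) - H (add U U) := by
  let μ := prodPM U.m U.m
  let a : U.Om × U.Om → E ⧸ W := fun w => q W (U.X w.1)
  let a2 : U.Om × U.Om → (E ⧸ W) × (E ⧸ W) := fun w => (q W (U.X w.1), q W (U.X w.2))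
  let S : U.Om × U.Om → E := fun w => U.X w.1 + U.X w.2
  let J : U.Om × U.Om → U.St × U.St := fun w => (U.J w.1, U.J w.2)
  have e1 : hq (fold U U) W = cent μ a (pr S J) := rfl
  have e2 := cent_chain μ a S J
  have e3 : cent μ S J = H (add U U) := rfl
  have e4 := cent_chain μ S a2 J
  have e5 : cent μ a2 J = hq U W + hq U W :=
    cent_prod_pair U.hm U.hm (fun w => q W (U.X w)) (fun w => q W (U.X w)) U.J U.J
  have e6 : cent μ S (pr a2 J) = H (add (rs U W) (rs U W)) := by
    refine cent_congr μ (fun w w' => ?_) (fun w w' _ => Iff.rfl)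
    simp only [pr_eq, a2, J, add, rs, Prod.mk.injEq]
    tauto
  have e7 : cent μ (pr a S) J = cent μ (pr S a2) J := by
    refine cent_congr μ (fun _ _ => Iff.rfl) (fun w w' _ => ?_)
    simp only [pr_eq, a, a2, S, Prod.mk.injEq]
    constructor
    · rintro ⟨h1, h2⟩
      refine ⟨h2, h1, ?_⟩
      rw [q_eq] at h1 ⊢
      have h3 : U.X w.2 - U.X w'.2 = -(U.X w.1 - U.X w'.1) := by
        have h4 : U.X w.2 - U.X w'.2 + (U.X w.1 - U.X w'.1)
            = (U.X w.1 + U.X w.2) - (U.X w'.1 + U.X w'.2) := by abel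
        rw [h2, sub_self] at h4
        exact eq_neg_of_add_eq_zero_left h4
      rw [h3]
      exact W.neg_mem h1
    · rintro ⟨h1, h2, _⟩
      exact ⟨h2, h1⟩
  rw [hh_eq, hh_eq, e1]
  linarith

/-! ### the step -/

/-- self-sums of `c`-spread families -/
def Rb (E : Type) [AddCommGroup E] (c r : ℝ) : Prop :=
  ∀ (U : Fam E) (V : AddSubgroup E), In U V → Spr U V c → ls V - H (add U U) ≤ r * (ls V - H U)

/-- PFR against a spread family -/
def PFRs (E : Type) [AddCommGroup E] : Prop :=
  ∀ (B Y : Fam E) (V : AddSubgroup E) (s e : ℝ), In B V → In Y V → 0 ≤ s → s ≤ 1 → 0 ≤ e →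
    (∀ W : AddSubgroup E, W ≤ V → ls V - hh B W ≤ s * (ls V - ls W) + e) →
    ls V - H (add B Y) ≤ s * (ls V - H Y) + 40 * (SD Y - H Y) + e

/-- entropic BSG for four copies -/
def BSG4 (E : Type) [AddCommGroup E] : Prop :=
  ∀ U : Fam E, SD (add (fold U U) (fold U U)) + 2 * H (add (fold U U) (fold U U)) ≤
    3 * (2 * H (add U U) - H (add (add U U) (add U U)))

section fin
variable [Finite E]

lemma Spr_mono {U : Fam E} {V : AddSubgroup E} {s t : ℝ} (h : Spr U V s) (hst : s ≤ t) :
    Spr U V t := fun W hW => (h W hW).trans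
      (mul_le_mul_of_nonneg_right hst (sub_nonneg.2 (ls_mono hW)))

lemma Spr_add {U U' : Fam E} {V : AddSubgroup E} {s : ℝ} (h : Spr U V s) :
    Spr (add U U') V s := fun W hW => by
  have h1 := h W hW
  have h2 := hh_add_left U U' W
  linarith

/-- (2.3): spread of the learning, with an error -/
lemma spr_fold {c r : ℝ} (hR : Rb E (8 * c) r) (hr : 0 ≤ r) (hc : 0 ≤ c) {U : Fam E}
    {V : AddSubgroup E} (hU : In U V) (hS : Spr U V c) (W : AddSubgroup E) (hW : W ≤ V) :
    ls V - hh (fold U U) W ≤ 4 * c * (ls V - ls W)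
      + (r * (ls V - H U) - (ls V - H (add U U))) := by
  obtain ⟨W', hW', h1, _, h2⟩ := threshold (In_rs U W) (2 * c)
  have h3 := hR (rs (rs U W) W') W' (In_rs _ _) (Spr_mono h2 (by linarith))
  rw [H_rs] at h3
  have h4 := H_add_ge_rs (rs U W) (rs U W) W'
  have h5 : hq (rs U W) W' = hh (rs U W) W' - ls W' := by rw [hh_eq]; ring
  rw [h5] at h4
  rw [hh_rs U hW', H_rs] at h3
  rw [hh_rs U hW'] at h4 h1
  have h6 := hh_fold_self U W
  have h7 := hS W hW
  have h8 := hS W' (hW'.trans hW)
  have h9 := hh_le hU hW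
  have h10 := hh_le hU (hW'.trans hW)
  have h11 : r * (hh U W' - H U) ≤ r * (ls V - H U) :=
    mul_le_mul_of_nonneg_left (by linarith) hr
  have h12 : ls W' - (H U - hh U W + ls W - (hh U W' - hh U W + ls W) + ls W')
      = hh U W' - H U := by ring
  rw [h12] at h3
  have h13 : c * (ls W - ls W') ≤ c * (ls V - ls W) := by nlinarith
  nlinarith

/-- (2.4) -/
lemma two4 {c r : ℝ} (hR : Rb E (8 * c) r) (hr : 0 ≤ r) (hc : 0 ≤ c) {U : Fam E}
    {V : AddSubgroup E} (hU : In U V) (hS : Spr U V c) :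
    ls V - H (add (fold U U) (fold U U)) ≤
      2 * (r * (ls V - H U) - (ls V - H (add U U))) + r * (ls V - H (fold U U)) := by
  have hZ : In (fold U U) V := In_fold hU
  obtain ⟨W, hW, h1, _, h2⟩ := threshold hZ (8 * c)
  have h3 := hR (rs (fold U U) W) W (In_rs _ _) h2
  rw [H_rs] at h3
  have h4 := H_add_ge_rs (fold U U) (fold U U) W
  have h5 : hq (fold U U) W = hh (fold U U) W - ls W := by rw [hh_eq]; ring
  rw [h5] at h4
  have h6 := spr_fold hR hr hc hU hS W hW
  have h7 := hh_le hZ hW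
  have h8 : r * (hh (fold U U) W - H (fold U U)) ≤ r * (ls V - H (fold U U)) :=
    mul_le_mul_of_nonneg_left (by linarith) hr
  have h9 : ls W - (H (fold U U) - hh (fold U U) W + ls W) = hh (fold U U) W - H (fold U U) := by
    ring
  rw [h9] at h3
  have h10 : 4 * c * (ls V - ls W) ≤ r * (ls V - H U) - (ls V - H (add U U)) := by linarith
  linarith

/-- one step of the iteration -/
lemma rb_step (hP : PFRs E) (hB : BSG4 E) {c r : ℝ} (hR : Rb E (8 * c) r) (hr : 1 / 16 ≤ r)
    (hr1 : r ≤ 1) (hc : 0 ≤ c) (hc1 : c ≤ 1 / 100000) : Rb E c (r - 1 / 200000) := by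
  intro U V hU hS
  have hr0 : 0 ≤ r := by linarith
  have h0 : 0 ≤ ls V - H U := sub_nonneg.2 (H_le hU)
  have hΔ : ls V - H (add U U) ≤ r * (ls V - H U) := hR U V hU (Spr_mono hS (by linarith))
  have h1 := two4 hR hr0 hc hU hS
  have h2 := hR (add U U) V (In_add hU hU) (Spr_mono (Spr_add hS) (by linarith))
  have h3 := H_add_fold U
  have h4 := H_AA_le U
  have h5 := hB U
  have h6 := H_fold U U
  have hZ : In (fold U U) V := In_fold hU
  have hA : In (add (fold U U) (fold U U)) V := In_add hZ hZ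
  have h7 := hP (add (fold U U) (fold U U)) (add (fold U U) (fold U U)) V (4 * c)
    (r * (ls V - H U) - (ls V - H (add U U))) hA hA (by linarith) (by linarith) (by linarith)
    (fun W hW => by
      have k1 := spr_fold hR hr0 hc hU hS W hW
      have k2 := hh_add_left (fold U U) (fold U U) W
      linarith)
  have h8 := H_add_left (fold U U) (fold U U)
  have h9 := H_add_left U U
  have h10 : 4 * c * (ls V - H (add (fold U U) (fold U U))) ≤ 4 * c * (2 * (ls V - H U)) := by
    refine mul_le_mul_of_nonneg_left ?_ (by linarith)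
    have := H_le (In_add hU hU)
    linarith
  rw [h6] at h1
  set n := ls V
  set h1' := H U
  set h2' := H (add U U)
  by_contra hcon
  push Not at hcon
  have h11 : r * (n - h1') - (n - h2') < 1 / 200000 * (n - h1') := by linarith
  have h12 : r * (n - h2') ≤ 8 * c * (n - h1') + 485 * (r * (n - h1') - (n - h2')) := by
    linarith
  have h13 : 8 * c * (n - h1') ≤ 8 / 100000 * (n - h1') := by nlinarith
  have h14 : r * (n - h2') = r * r * (n - h1') - r * (r * (n - h1') - (n - h2')) := by ring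
  have h15 : r * (r * (n - h1') - (n - h2')) ≤ r * (n - h1') - (n - h2') := by nlinarith
  have h16 : 1 / 256 * (n - h1') ≤ r * r * (n - h1') := by
    refine mul_le_mul_of_nonneg_right ?_ h0
    nlinarith
  have h17 : 0 < n - h1' := by linarith
  linarith

/-- iteration -/
lemma rb_iter (hP : PFRs E) (hB : BSG4 E) (m : ℕ) :
    Rb E (1 / 100000 / 8 ^ m) (max (1 / 16) (1 - m * (1 / 200000))) := by
  induction m with
  | zero =>
    intro U V hU _
    have h1 := H_add_left U U
    have h2 : max (1 / 16) (1 - ((0 : ℕ) : ℝ) * (1 / 200000)) = 1 := by norm_num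
    rw [h2]
    linarith
  | succ m ih =>
    have h1 : (8 : ℝ) * (1 / 100000 / 8 ^ (m + 1)) = 1 / 100000 / 8 ^ m := by
      rw [pow_succ]; field_simp
    rw [← h1] at ih
    have h2 : (0 : ℝ) ≤ 1 / 100000 / 8 ^ (m + 1) := by positivity
    have h3 : (1 : ℝ) / 100000 / 8 ^ (m + 1) ≤ 1 / 100000 := by
      refine div_le_self (by norm_num) (one_le_pow₀ (by norm_num))
    have h4 : max (1 / 16) (1 - (m : ℝ) * (1 / 200000)) ≤ 1 := by
      refine max_le (by norm_num) ?_
      have : (0 : ℝ) ≤ m := Nat.cast_nonneg m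
      linarith
    have h5 := rb_step hP hB ih (le_max_left _ _) h4 h2 h3
    intro U V hU hS
    refine (h5 U V hU hS).trans (mul_le_mul_of_nonneg_right ?_ (sub_nonneg.2 (H_le hU)))
    rcases le_total (1 - (m : ℝ) * (1 / 200000)) (1 / 16) with h6 | h6
    · rw [max_eq_left h6]
      exact (by linarith : (1 : ℝ) / 16 - 1 / 200000 ≤ 1 / 16).trans (le_max_left _ _)
    · rw [max_eq_right h6]
      refine le_trans (le_of_eq ?_) (le_max_right _ _)
      push_cast; ring

end fin

/-- STEP I -/
theorem stepI' (hP : ∀ (E : Type) [AddCommGroup E] [Two E] [Finite E], PFRs E)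
    (hB : ∀ (E : Type) [AddCommGroup E] [Two E] [Finite E], BSG4 E) :
    ∃ c : ℝ, 0 < c ∧ ∀ (E : Type) [AddCommGroup E] [Two E] [Finite E], Rb E c (1 / 16) := by
  refine ⟨1 / 100000 / 8 ^ 187500, by positivity, ?_⟩
  intro E _ _ _
  have h := rb_iter (hP E) (hB E) 187500
  have h1 : max (1 / 16) (1 - ((187500 : ℕ) : ℝ) * (1 / 200000)) = 1 / 16 := by norm_num
  rw [h1] at h
  exact h

end

end F2
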